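import Pool.Agent.Helper40.WD.Stmts

/-! Row DAV of sheet CAP: recursion over the levels. -/

set_option autoImplicit false

namespace Pool.Agent.Helper70.WD.DAV

open Pool.Agent.Helper40.WD

theorem mm_pos (k : ℕ) : 1 ≤ mm k := by
  induction k with
  | zero => exact le_rfl
  | succ k ih =>
    show 1 ≤ 3 * mm k
    omega

/-- one level -/
structure Lev (k : ℕ) where
  S : Fin (mm k) → Fin (4 * mm k) → ℝ
  T : Fin (mm (k + 1)) → Fin (4 * mm k) → ℝ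
  S_le : ∀ j g, |S j g| ≤ 4
  T_le : ∀ j g, |T j g| ≤ 4
  SS : ∀ i j, ∑ g, S i g * S j g = if i = j then (4 * mm k : ℝ) else 0
  TT : ∀ i j, ∑ g, T i g * T j g = if i = j then (4 * mm k : ℝ) else 0
  ST : ∀ i j, ∑ g, S i g * T j g = 0
  ker : ∀ g h, |∑ j, T j g * T j h - 3 * ∑ j, S j g * S j h| ≤ 1000 * (mm k : ℝ) ^ (3 / 4 : ℝ)

theorem st_DAV (h1 : ST_STEP) : ST_DAV := by
  have h0 : Nonempty (Lev 0) := by
    obtain ⟨S, T, a1, a2, a3, a4, a5, a6, -⟩ := h1 (mm 0) 0 le_rfl (Nat.zero_le _)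
      (fun _ g => g.elim0) (fun _ g => g.elim0)
    exact ⟨⟨S, T, a1, a2, a3, a4, a5, a6⟩⟩
  have hs : ∀ (k : ℕ) (x : Lev k), ∃ y : Lev (k + 1), ∀ g h,
      |∑ j, x.T j g * y.S j h| ≤ 1000 * (mm (k + 1) : ℝ) ^ (3 / 4 : ℝ) := by
    intro k x
    obtain ⟨S, T, a1, a2, a3, a4, a5, a6, a7⟩ := h1 (mm (k + 1)) (4 * mm k) (mm_pos _)
      (by show 4 * mm k ≤ 4 * (3 * mm k); omega) x.T x.T_le
    exact ⟨⟨S, T, a1, a2, a3, a4, a5, a6⟩, a7⟩
  choose nx hnx using hs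
  obtain ⟨x0⟩ := h0
  let q : ∀ k, Lev k := fun k => Nat.rec x0 (fun k x => nx k x) k
  exact ⟨{
    S := fun k => (q k).S
    T := fun k => (q k).T
    S_le := fun k => (q k).S_le
    T_le := fun k => (q k).T_le
    SS := fun k => (q k).SS
    TT := fun k => (q k).TT
    ST := fun k => (q k).ST
    ker := fun k => (q k).ker
    crs := fun k g h => hnx k (q k) g h }⟩

end Pool.Agent.Helper70.WD.DAV
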